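import Pool.Agent.Y110.FJ.Stm4

/-!
# Extension property for one embedding of a part of a finite labelled graph

Adaptation of `Pool.Agent.Y529.FJ.Eppa`.
-/

set_option autoImplicit false

namespace Pool.Agent.Y312.FJ

open Pool.Agent.Y110.FJ

/-- finitely many labels have a code in a finite abelian group -/
lemma exists_code {L S : Type} [Finite S] [Nonempty S] (c : S → S → L) :
    ∃ (n : ℕ) (_ : NeZero n) (code : L → ZMod n) (dec : ZMod n → L),
      ∀ x y, dec (code (c x y)) = c x y := by
  classical
  set R : Set L := Set.range (fun p : S × S => c p.1 p.2) with hR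
  have hfin : Finite R := Set.finite_range _
  obtain ⟨x₀⟩ := ‹Nonempty S›
  have hne : Nonempty R := ⟨⟨c x₀ x₀, ⟨(x₀, x₀), rfl⟩⟩⟩
  obtain ⟨n, ⟨e⟩⟩ := Finite.exists_equiv_fin R
  have hn : n ≠ 0 := by
    rintro rfl
    obtain ⟨r⟩ := hne
    exact (e r).elim0
  haveI : NeZero n := ⟨hn⟩
  let e' : R ≃ ZMod n := e.trans (ZMod.finEquiv n).toEquiv
  refine ⟨n, ⟨hn⟩, fun l => if h : l ∈ R then e' ⟨l, h⟩ else 0, fun z => (e'.symm z).1, ?_⟩
  intro x y
  have h : c x y ∈ R := ⟨(x, y), rfl⟩
  simp only [dif_pos h, Equiv.symm_apply_apply]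

theorem t_eppal : S_EPPAL := by
  classical
  intro L S hS c D f hcs hf hcf
  rcases isEmpty_or_nonempty S with hemp | hne
  · exact ⟨S, hS, c, id, Equiv.refl S, Function.injective_id, hcs, fun _ _ => rfl,
      fun _ _ => rfl, fun x => (hemp.false x.1).elim⟩
  have := Fintype.ofFinite S
  obtain ⟨n, hn, code, dec, hdec⟩ := exists_code c
  obtain ⟨m, ⟨e⟩⟩ := Finite.exists_equiv_fin S
  obtain ⟨a, hadef⟩ : ∃ a : S → S → ZMod n,
      a = fun x y => if e y ≤ e x then code (c x y) else 0 := ⟨_, rfl⟩
  have haa : ∀ x, a x x = code (c x x) := by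
    intro x
    rw [hadef]
    simp
  have ha : ∀ x y, x ≠ y → a x y + a y x = code (c x y) := by
    intro x y hxy
    have hne : e x ≠ e y := fun h' => hxy (e.injective h')
    rcases lt_or_gt_of_ne hne with h1 | h1
    · rw [hadef]
      simp only
      rw [if_neg (not_le.2 h1), if_pos h1.le, zero_add, hcs y x]
    · rw [hadef]
      simp only
      rw [if_pos h1.le, if_neg (not_le.2 h1), add_zero]
  obtain ⟨s, hsdef⟩ : ∃ s : Equiv.Perm S, s = (Equiv.ofInjective f hf).extendSubtype := ⟨_, rfl⟩
  have hs : ∀ x : D, s x = f x := by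
    intro x
    rw [hsdef]
    exact Equiv.extendSubtype_apply_of_mem (Equiv.ofInjective f hf) x.1 x.2
  have hcD : ∀ x ∈ D, ∀ y ∈ D, c (s x) (s y) = c x y := by
    intro x hx y hy
    rw [hs ⟨x, hx⟩, hs ⟨y, hy⟩]
    exact hcf ⟨x, hx⟩ ⟨y, hy⟩
  obtain ⟨G, hG⟩ : ∃ G : S → S → ZMod n, G = fun x y => a (s x) (s y) - a x y := ⟨_, rfl⟩
  obtain ⟨F, hF⟩ : ∃ F : S → S → ZMod n,
    F = fun x y => if x ∈ D then G x y else if y ∈ D then -G y x else 0 := ⟨_, rfl⟩
  have hF0 : ∀ x, F x x = 0 := by
    intro x
    rw [hF]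
    by_cases hx : x ∈ D
    · simp only [if_pos hx]
      rw [hG]
      simp only
      rw [haa, haa, hcD x hx x hx, sub_self]
    · simp [hx]
  have hFs : ∀ x y, F x y + F y x = 0 := by
    intro x y
    by_cases hxy : x = y
    · subst hxy
      rw [hF0, add_zero]
    rw [hF]
    by_cases hx : x ∈ D
    · by_cases hy : y ∈ D
      · simp only [if_pos hx, if_pos hy]
        rw [hG]
        simp only
        have h1 := ha x y hxy
        have h2 := ha (s x) (s y) (fun h => hxy (s.injective h))
        rw [hcD x hx y hy] at h2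
        have e1 : a (s x) (s y) - a x y + (a (s y) (s x) - a y x) =
          (a (s x) (s y) + a (s y) (s x)) - (a x y + a y x) := by ring
        rw [e1, h1, h2, sub_self]
      · simp [hx, hy]
    · by_cases hy : y ∈ D
      · simp [hx, hy]
      · simp [hx, hy]
  have hFD : ∀ x ∈ D, ∀ y, a x y + F x y = a (s x) (s y) := by
    intro x hx y
    have e1 : F x y = a (s x) (s y) - a x y := by rw [hF, hG]; simp [hx]
    rw [e1]
    ring
  let c' : S × (S → ZMod n) → S × (S → ZMod n) → L := fun p q =>
    if p = q then dec (p.2 p.1) else dec (p.2 q.1 + q.2 p.1)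
  let τ : Equiv.Perm (S × (S → ZMod n)) :=
    { toFun := fun p => (s p.1, fun w => p.2 (s.symm w) + F p.1 (s.symm w))
      invFun := fun p => (s.symm p.1, fun z => p.2 (s z) - F (s.symm p.1) z)
      left_inv := by
        rintro ⟨x, χ⟩
        refine Prod.ext (s.symm_apply_apply x) ?_
        funext z
        change χ (s.symm (s z)) + F x (s.symm (s z)) - F (s.symm (s x)) z = χ z
        rw [s.symm_apply_apply, s.symm_apply_apply, add_sub_cancel_right]
      right_inv := by
        rintro ⟨x, χ⟩
        refine Prod.ext (s.apply_symm_apply x) ?_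
        funext w
        change χ (s (s.symm w)) - F (s.symm x) (s.symm w) + F (s.symm x) (s.symm w) = χ w
        rw [s.apply_symm_apply, sub_add_cancel] }
  have hT : Finite (S × (S → ZMod n)) := by
    have : Finite (ZMod n) := inferInstance
    infer_instance
  refine ⟨S × (S → ZMod n), hT, c', fun x => (x, a x), τ, ?_, ?_, ?_, ?_, ?_⟩
  · intro x y h
    exact (Prod.ext_iff.1 h).1
  · intro p q
    by_cases h : p = q
    · subst h
      rfl
    · change (if p = q then dec (p.2 p.1) else dec (p.2 q.1 + q.2 p.1)) =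
        if q = p then dec (q.2 q.1) else dec (q.2 p.1 + p.2 q.1)
      rw [if_neg h, if_neg (fun h' => h h'.symm), add_comm]
  · intro x y
    by_cases h : x = y
    · subst h
      change (if (x, a x) = (x, a x) then dec (a x x) else dec (a x x + a x x)) = c x x
      rw [if_pos rfl, haa, hdec]
    · change (if (x, a x) = (y, a y) then dec (a x x) else dec (a x y + a y x)) = c x y
      rw [if_neg (fun h' => h (Prod.ext_iff.1 h').1), ha x y h, hdec]
  · rintro p q
    by_cases h : p = q
    · subst h
      change (if τ p = τ p then dec (p.2 (s.symm (s p.1)) + F p.1 (s.symm (s p.1))) else _) =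
        if p = p then dec (p.2 p.1) else _
      rw [if_pos rfl, if_pos rfl, s.symm_apply_apply, hF0, add_zero]
    · change (if τ p = τ q then _ else dec ((p.2 (s.symm (s q.1)) + F p.1 (s.symm (s q.1))) +
          (q.2 (s.symm (s p.1)) + F q.1 (s.symm (s p.1))))) =
        if p = q then _ else dec (p.2 q.1 + q.2 p.1)
      rw [if_neg (fun h' => h (τ.injective h')), if_neg h, s.symm_apply_apply, s.symm_apply_apply]
      congr 1
      have := hFs p.1 q.1
      calc p.2 q.1 + F p.1 q.1 + (q.2 p.1 + F q.1 p.1) =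
          p.2 q.1 + q.2 p.1 + (F p.1 q.1 + F q.1 p.1) := by ring
        _ = _ := by rw [this, add_zero]
  · intro x
    refine Prod.ext (hs x) ?_
    funext w
    change a x (s.symm w) + F x (s.symm w) = a (f x) w
    rw [hFD x.1 x.2, s.apply_symm_apply, hs x]

end Pool.Agent.Y312.FJ
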